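import Mathlib
import Pool.Agent.W512.HarbDefs
import Pool.Agent.W512.HK

/-!
# The bound of Harbourne fails on a rational surface

There are sixteen points of `ℂ × ℂ`, contained in the product of two projective lines, such that the
blow-up `X` of this product in these points carries irreducible curves `D` with `h⁰(X, 𝒪(D)) = 1` and
`h¹(X, 𝒪(D))` as large as we like.  So the smooth projective rational surface `X` has no constant `α`
with `h¹(D) ≤ α h⁰(D)` for every irreducible curve `D`.

The proof.  The blow-up `Y` of the product of two projective lines in the eight points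
`(1, ±1/5), (-1, ±7/5), (±1/5, 1), (±7/5, -1)` has two birational involutions which generate an infinite
group; the orbit of one curve consists of infinitely many curves `G` with `G² = -1`, `G · K = -1` and
`h⁰(G) = 1`, and the first degree `A` of `G` is not bounded.  The double cover `(x, y) ↦ (x, y² + l)`,
with `l` outside of a countable set, pulls `G` back to an irreducible curve `D` on the blow-up in the
sixteen points over the eight points, with `h⁰(D) = 1`; and `h¹(D) ≥ A` by the count of parameters.
-/

set_option autoImplicit false

namespace Pool.Agent.Results.MP_d885f5_ag.NoHarbourneBound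

open Pool.Agent.W512.Harbourne

/-- There is a set `Z` of sixteen points of `ℂ × ℂ` such that, for every real number `α`, there is an
irreducible polynomial `P` in two variables whose curve `D` on the blow-up `X` of the product of two
projective lines in `Z` has `h⁰(X, 𝒪(D)) = 1` and `h¹(X, 𝒪(D)) > α h⁰(X, 𝒪(D))`. -/
theorem result : ∃ Z : Finset (ℂ × ℂ), Z.card = 16 ∧
    ∀ α : ℝ, ∃ P : MvPolynomial (Fin 2) ℂ,
      Irreducible P ∧ h0 Z P = 1 ∧ α * (h0 Z P : ℝ) < (h1 Z P : ℝ) := by
  obtain ⟨Z, hZ, h⟩ := Pool.Agent.W512.Harb.main
  refine ⟨Z, hZ, fun α => ?_⟩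
  obtain ⟨n, hn⟩ := exists_nat_gt α
  obtain ⟨P, hP, h0, h1⟩ := h n
  refine ⟨P, hP, h0, ?_⟩
  rw [h0, Nat.cast_one, mul_one]
  exact lt_of_lt_of_le hn (by exact_mod_cast h1)

end Pool.Agent.Results.MP_d885f5_ag.NoHarbourneBound
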